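import Pool.Agent.PQP.StmtsE

set_option autoImplicit false

open scoped InnerProductSpace Topology ContDiff Manifold
open MeasureTheory Filter Set

noncomputable section

namespace Pool.Agent.PQP.H80

open Pool.Agent.Helper42_Paneitz Pool.Agent.Helper82_Vir Pool.Agent.FLX Pool.Agent.PQP

/-! ### the function `-log Q` -/

theorem radialExt_pos {Q : S4 → ℝ} (hpos : ∀ x, 0 < Q x) {y : E5} (hy : y ≠ 0) :
    0 < radialExt Q y := by
  rw [radialExt_apply _ hy]; exact hpos _

theorem radialExt_neglog (Q : S4 → ℝ) {y : E5} (hy : y ≠ 0) :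
    radialExt (fun x => -Real.log (Q x)) y = -Real.log (radialExt Q y) := by
  rw [radialExt_apply _ hy, radialExt_apply _ hy]

theorem sm_neglog {Q : S4 → ℝ} (hQ : Sm Q) (hpos : ∀ x, 0 < Q x) :
    Sm (fun x => -Real.log (Q x)) := by
  intro y hy
  have h1 : radialExt (fun x => -Real.log (Q x)) =ᶠ[𝓝 y] fun z => -Real.log (radialExt Q z) := by
    filter_upwards [eventually_ne_zero hy] with z hz
    exact radialExt_neglog Q hz
  exact (((hQ y hy).log (radialExt_pos hpos hy).ne').neg).congr_of_eventuallyEq h1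

theorem fderiv_neglog {Q : S4 → ℝ} (hQ : Sm Q) (hpos : ∀ x, 0 < Q x) {y : E5} (hy : y ≠ 0) :
    fderiv ℝ (radialExt (fun x => -Real.log (Q x))) y =
      -((radialExt Q y)⁻¹ • fderiv ℝ (radialExt Q) y) := by
  have h1 : radialExt (fun x => -Real.log (Q x)) =ᶠ[𝓝 y] fun z => -Real.log (radialExt Q z) := by
    filter_upwards [eventually_ne_zero hy] with z hz
    exact radialExt_neglog Q hz
  rw [h1.fderiv_eq]
  have h2 : HasFDerivAt (radialExt Q) (fderiv ℝ (radialExt Q) y) y :=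
    (sm_diffAt hQ hy).hasFDerivAt
  exact ((h2.log (radialExt_pos hpos hy).ne').neg).fderiv

theorem hess_neglog {Q : S4 → ℝ} (hQ : Sm Q) (hpos : ∀ x, 0 < Q x) {p : S4}
    (hc : ∀ v, dd Q p v = 0) (v w : E5) :
    hess (fun x => -Real.log (Q x)) p v w = -((Q p)⁻¹ * hess Q p v w) := by
  have hp := S4_ne_zero p
  have h0 : fderiv ℝ (radialExt Q) (p : E5) = 0 := by
    ext v
    exact hc v
  have h1 : fderiv ℝ (radialExt (fun x => -Real.log (Q x))) =ᶠ[𝓝 (p : E5)]
      fun y => -((radialExt Q y)⁻¹ • fderiv ℝ (radialExt Q) y) := by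
    filter_upwards [eventually_ne_zero hp] with z hz
    exact fderiv_neglog hQ hpos hz
  have hg : DifferentiableAt ℝ (radialExt Q) (p : E5) := sm_diffAt hQ hp
  have hgi : DifferentiableAt ℝ (fun y => (radialExt Q y)⁻¹) (p : E5) :=
    hg.inv (radialExt_pos hpos hp).ne'
  have hfd : DifferentiableAt ℝ (fderiv ℝ (radialExt Q)) (p : E5) :=
    ((hQ p hp).fderiv_right (m := ∞) (by simp)).differentiableAt (by simp)
  have h2 := (hgi.hasFDerivAt.smul hfd.hasFDerivAt).neg.fderiv
  unfold hess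
  rw [h1.fderiv_eq]
  have h3 : fderiv ℝ (fun y => -((radialExt Q y)⁻¹ • fderiv ℝ (radialExt Q) y)) (p : E5) =
      fderiv ℝ (-fun y => (radialExt Q y)⁻¹ • fderiv ℝ (radialExt Q) y) (p : E5) := rfl
  rw [h0] at h2
  have h4 : fderiv ℝ (fun y => -((radialExt Q y)⁻¹ • fderiv ℝ (radialExt Q) y)) (p : E5) v w =
      -((Q p)⁻¹ * fderiv ℝ (fderiv ℝ (radialExt Q)) (p : E5) v w) := by
    rw [h3]
    first
    | (rw [show (-fun y => (radialExt Q y)⁻¹ • fderiv ℝ (radialExt Q) y) =
        -((fun y => (radialExt Q y)⁻¹) • fderiv ℝ (radialExt Q)) from rfl, h2, radialExt_coe]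
       simp)
  exact h4

theorem sphLaplacian_eq_hess {f : S4 → ℝ} (x : S4) :
    sphLaplacian f x = ∑ i : Fin 5, hess f x (ee i) (ee i) := by
  unfold sphLaplacian
  rw [laplacian_eq_sum]
  apply Finset.sum_congr rfl
  intro i _
  rw [iteratedFDeriv_two_apply]
  simp only [Matrix.cons_val_zero, Matrix.cons_val_one]
  rfl

theorem lap_neglog {Q : S4 → ℝ} (hQ : Sm Q) (hpos : ∀ x, 0 < Q x) {p : S4}
    (hc : ∀ v, dd Q p v = 0) :
    sphLaplacian (fun x => -Real.log (Q x)) p = -((Q p)⁻¹ * sphLaplacian Q p) := by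
  rw [sphLaplacian_eq_hess, sphLaplacian_eq_hess, Finset.mul_sum, ← Finset.sum_neg_distrib]
  exact Finset.sum_congr rfl fun i _ => hess_neglog hQ hpos hc _ _

theorem nondeg_neglog {Q : S4 → ℝ} (hQ : Sm Q) (hpos : ∀ x, 0 < Q x) {p : S4}
    (h : NondegCrit Q p) : NondegCrit (fun x => -Real.log (Q x)) p := by
  refine ⟨fun v => ?_, fun v hv hw => h.2 v hv fun w hxw => ?_⟩
  · unfold dd
    rw [fderiv_neglog hQ hpos (S4_ne_zero p)]
    have h0 : fderiv ℝ (radialExt Q) (p : E5) v = 0 := h.1 v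
    simp [h0]
  · have h1 := hw w hxw
    rw [hess_neglog hQ hpos h.1] at h1
    have h2 : (Q p)⁻¹ ≠ 0 := inv_ne_zero (hpos p).ne'
    have h3 : (Q p)⁻¹ * hess Q p v w = 0 := by linarith
    exact (mul_eq_zero.1 h3).resolve_left h2

/-! ### separation of a finite set -/

theorem exists_sep (F : Finset S4) : ∃ δ : ℝ, 0 < δ ∧ ∀ p ∈ F, ∀ q ∈ F, p ≠ q →
    2 * δ ≤ ‖(p : E5) - (q : E5)‖ := by
  classical
  set S := (F ×ˢ F).filter fun P => P.1 ≠ P.2 with hS
  rcases S.eq_empty_or_nonempty with he | hne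
  · refine ⟨1, one_pos, fun p hp q hq hpq => ?_⟩
    have : (p, q) ∈ S := by
      rw [hS, Finset.mem_filter, Finset.mem_product]
      exact ⟨⟨hp, hq⟩, hpq⟩
    rw [he] at this
    exact absurd this (Finset.notMem_empty _)
  · refine ⟨S.inf' hne (fun P => ‖(P.1 : E5) - (P.2 : E5)‖) / 2, ?_, fun p hp q hq hpq => ?_⟩
    · apply half_pos
      rw [Finset.lt_inf'_iff]
      intro P hP
      rw [hS, Finset.mem_filter] at hP
      rw [norm_pos_iff, sub_ne_zero]
      exact fun h => hP.2 (Subtype.ext h)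
    · have hm : (p, q) ∈ S := by
        rw [hS, Finset.mem_filter, Finset.mem_product]
        exact ⟨⟨hp, hq⟩, hpq⟩
      have := Finset.inf'_le (fun P : S4 × S4 => ‖(P.1 : E5) - (P.2 : E5)‖) hm
      have h2 : 2 * (S.inf' hne (fun P => ‖(P.1 : E5) - (P.2 : E5)‖) / 2) =
        S.inf' hne (fun P => ‖(P.1 : E5) - (P.2 : E5)‖) := by ring
      rw [h2]
      exact this

/-! ### the row -/

theorem mass_eq {ρ u : S4 → ℝ} (hu : Sm u) (hρ : Continuous ρ)
    (h : ∀ x, paneitz u x = ρ x - 6) : ∫ x, ρ x ∂sig = 6 * msig := by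
  have h1 := integral_paneitz hu
  have h2 : ∫ y, paneitz u y ∂sig = ∫ y, (ρ y - 6) ∂sig := by
    congr 1
    funext y
    exact h y
  rw [h2, integral_sub (integrable_cont hρ) (integrable_cont continuous_const),
    integral_const_sig] at h1
  linarith

theorem lex (lpe : LpeStmt) : LexStmt := by
  classical
  intro Q hQ hpos F hF
  obtain ⟨δ, hδ, hsep⟩ := exists_sep F
  set ψ : S4 → ℝ := fun x => -Real.log (Q x) with hψ
  have hSm : Sm ψ := sm_neglog hQ hpos
  have h1 : ∀ p : S4, ∃ t₀ : ℝ, p ∈ F → ∀ t : ℝ, t₀ ≤ t →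
      ∃ u : S4 → ℝ, Sm u ∧
      (∀ x, paneitz u x = Real.exp (-(t * ψ x)) * Real.exp (4 * u x) - 6) ∧
      ∫ z in {z : S4 | δ ≤ ‖(z : E5) - (p : E5)‖},
        Real.exp (-(t * ψ z)) * Real.exp (4 * u z) ∂sig ≤ msig := by
    intro p
    by_cases hp : p ∈ F
    · obtain ⟨hnd, hlap, x₀, hx₀⟩ := hF p hp
      have hl : 0 < sphLaplacian ψ p := by
        rw [hψ, lap_neglog hQ hpos hnd.1]
        have := inv_pos.2 (hpos p)
        nlinarith
      have hlt : ψ x₀ < ψ p := by
        have := Real.log_lt_log (hpos p) hx₀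
        simp only [hψ]
        linarith
      obtain ⟨t₀, ht₀⟩ := lpe ψ p x₀ δ hSm (nondeg_neglog hQ hpos hnd) hl hlt hδ
      exact ⟨t₀, fun _ => ht₀⟩
    · exact ⟨0, fun h => absurd h hp⟩
  choose t₀ ht₀ using h1
  refine ⟨∑ p ∈ F, |t₀ p|, fun t ht => ?_⟩
  have h2 : ∀ i : Fin F.card, ∃ u : S4 → ℝ, Sm u ∧
      (∀ x, paneitz u x = Real.exp (-(t * ψ x)) * Real.exp (4 * u x) - 6) ∧
      ∫ z in {z : S4 | δ ≤ ‖(z : E5) - ((F.equivFin.symm i : S4) : E5)‖},
        Real.exp (-(t * ψ z)) * Real.exp (4 * u z) ∂sig ≤ msig := by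
    intro i
    have hm : (F.equivFin.symm i : S4) ∈ F := (F.equivFin.symm i).2
    refine ht₀ _ hm t (le_trans ?_ ht)
    exact (le_abs_self _).trans
      (Finset.single_le_sum (f := fun p => |t₀ p|) (fun p _ => abs_nonneg _) hm)
  choose u hu1 hu2 hu3 using h2
  have hQt : ∀ x, Q x ^ t = Real.exp (-(t * ψ x)) := by
    intro x
    rw [Real.rpow_def_of_pos (hpos x)]
    congr 1
    simp only [hψ]
    ring
  refine ⟨u, ?_, fun i => ⟨hu1 i, fun x => ?_⟩⟩
  · intro i j hij
    by_contra hne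
    have hpq : (F.equivFin.symm i : S4) ≠ (F.equivFin.symm j : S4) := by
      intro h
      exact hne (F.equivFin.symm.injective (Subtype.ext h))
    have hs := hsep _ (F.equivFin.symm i).2 _ (F.equivFin.symm j).2 hpq
    have hcψ : Continuous ψ := continuous_of_sm hSm
    have hcu : Continuous (u i) := continuous_of_sm (hu1 i)
    have hcr : Continuous fun z => Real.exp (-(t * ψ z)) * Real.exp (4 * u i z) := by fun_prop
    have hmass := mass_eq (hu1 i) hcr (hu2 i)
    have h3 := hu3 i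
    have h4 := hu3 j
    rw [← hij] at h4
    set A := {z : S4 | δ ≤ ‖(z : E5) - ((F.equivFin.symm i : S4) : E5)‖} with hA
    set B := {z : S4 | δ ≤ ‖(z : E5) - ((F.equivFin.symm j : S4) : E5)‖} with hB
    have hint := integrable_cont hcr
    have hnn : ∀ z, 0 ≤ Real.exp (-(t * ψ z)) * Real.exp (4 * u i z) := fun z => by positivity
    have hAm : MeasurableSet A :=
      (isClosed_le continuous_const ((continuous_subtype_val.sub continuous_const).norm)).measurableSet
    have hAB : Aᶜ ⊆ B := by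
      intro z hz
      rw [hA, mem_compl_iff, mem_ofPred_eq, not_le] at hz
      rw [hB, mem_ofPred_eq]
      by_contra hlt
      rw [not_le] at hlt
      have h5 : ‖((F.equivFin.symm i : S4) : E5) - ((F.equivFin.symm j : S4) : E5)‖ ≤
          ‖(z : E5) - ((F.equivFin.symm i : S4) : E5)‖ +
            ‖(z : E5) - ((F.equivFin.symm j : S4) : E5)‖ := by
        have h6 : ((F.equivFin.symm i : S4) : E5) - ((F.equivFin.symm j : S4) : E5) =
            ((z : E5) - ((F.equivFin.symm j : S4) : E5)) -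
              ((z : E5) - ((F.equivFin.symm i : S4) : E5)) := by abel
        rw [h6, add_comm]
        exact norm_sub_le _ _
      linarith
    have h7 : ∫ z in Aᶜ, Real.exp (-(t * ψ z)) * Real.exp (4 * u i z) ∂sig ≤
        ∫ z in B, Real.exp (-(t * ψ z)) * Real.exp (4 * u i z) ∂sig :=
      setIntegral_mono_set hint.integrableOn (Eventually.of_forall hnn)
        (LE.le.eventuallyLE hAB)
    have h8 := integral_add_compl hAm hint
    have h9 := msig_pos
    linarith
  · show paneitz (u i) x = Q x ^ t * Real.exp (4 * u i x) - 6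
    rw [hQt x]
    exact hu2 i x

end Pool.Agent.PQP.H80
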